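import Pool.Agent.Lib.MP_6bc78b_nt.MS.QZ.Iface2

/-! Project MS, Part QZ, module FI2 (helper63): the final statement with the pointwise bound. -/

set_option autoImplicit false

open Complex Filter Topology MeasureTheory ArithmeticFunction

namespace Pool.Agent.Lib.MP_6bc78b_nt.MS.QZ.H63

open Pool.Agent.Lib.MP_6bc78b_nt Pool.Agent.Lib.MP_6bc78b_nt.MS
  Pool.Agent.Lib.MP_6bc78b_nt.MS.P1 Pool.Agent.Lib.MP_6bc78b_nt.MS.QZ

lemma DD_pos {T : ℝ} (h : 1 < T) : 0 < DD T := by
  unfold DD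
  exact div_pos (by linarith) (Real.rpow_pos_of_pos (Real.log_pos h) _)

lemma wt_pos (T γ : ℝ) : 0 < wt T γ := Real.exp_pos _

/-- the elementary inequality for the pointwise bound -/
lemma pt_bound {A' η T γ z : ℝ} (hA' : 0 < A') (hη : 0 < η) (hη1 : η ≤ 1) (hT : 40 ≤ T)
    (h1 : T / 2 < γ) (h2 : γ < 2 * T)
    (hz : η * Real.log T ≤ z * Real.exp (A' * Real.sqrt (ll T))) :
    Real.log γ * Real.exp (-((2 * A' + Real.log (2 / η)) *
      Real.sqrt (Real.log (Real.log γ)))) ≤ z := by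
  have hγ : 20 < γ := by linarith
  have he3 : Real.exp 1 < 3 := by linarith [Real.exp_one_lt_d9]
  have hl3 : 1 < Real.log 3 := by
    rw [Real.lt_log_iff_exp_lt (by norm_num)]; exact he3
  have hlγ : Real.exp 1 ≤ Real.log γ := by
    have h4 : Real.log 20 ≤ Real.log γ := Real.log_le_log (by norm_num) hγ.le
    have h5 : 2.75 < Real.log 20 := by
      rw [Real.lt_log_iff_exp_lt (by norm_num)]
      have h6 : Real.exp 2.75 ^ 4 < 20 ^ 4 := by
        rw [← Real.exp_nat_mul]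
        have h7 : ((4 : ℕ) : ℝ) * 2.75 = (11 : ℕ) * 1 := by norm_num
        rw [h7, Real.exp_nat_mul]
        calc Real.exp 1 ^ 11 ≤ (2.7182818286 : ℝ) ^ 11 :=
              pow_le_pow_left₀ (Real.exp_pos 1).le Real.exp_one_lt_d9.le 11
          _ < 20 ^ 4 := by norm_num
      exact lt_of_pow_lt_pow_left₀ 4 (by norm_num) h6
    linarith [Real.exp_one_lt_d9]
  have hlγ0 : 0 < Real.log γ := (Real.exp_pos 1).trans_le hlγ
  have hll : 1 ≤ Real.log (Real.log γ) := by
    rw [Real.le_log_iff_exp_le hlγ0]; exact hlγ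
  have hs1 : 1 ≤ Real.sqrt (Real.log (Real.log γ)) := by
    rw [Real.one_le_sqrt]; exact hll
  have hlT0 : 0 < Real.log T := Real.log_pos (by linarith)
  have hlT : Real.log γ ≤ 2 * Real.log T := by
    have h4 : Real.log γ ≤ Real.log (T ^ 2) := Real.log_le_log (by linarith) (by nlinarith)
    rw [Real.log_pow] at h4
    exact_mod_cast h4
  have hl2 : Real.log 2 ≤ 1 := by
    have := Real.log_two_lt_d9
    linarith
  have hTγ : Real.log T ≤ 2 * Real.log γ := by
    have h4 : Real.log T ≤ Real.log (2 * γ) := Real.log_le_log (by linarith) (by linarith)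
    rw [Real.log_mul (by norm_num) (by linarith)] at h4
    have h5 : Real.log 2 ≤ Real.log γ := Real.log_le_log (by norm_num) (by linarith)
    linarith
  have hllT : ll T ≤ Real.log (Real.log γ) + 1 := by
    unfold ll
    have h4 : Real.log (Real.log T) ≤ Real.log (2 * Real.log γ) := Real.log_le_log hlT0 hTγ
    rw [Real.log_mul (by norm_num) hlγ0.ne'] at h4
    linarith
  have hsT : Real.sqrt (ll T) ≤ Real.sqrt (Real.log (Real.log γ)) + 1 := by
    rw [Real.sqrt_le_left (by positivity)]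
    have h4 := Real.sq_sqrt (show (0 : ℝ) ≤ Real.log (Real.log γ) by linarith)
    nlinarith
  have hlη : 0 ≤ Real.log (2 / η) := by
    apply Real.log_nonneg
    rw [le_div_iff₀ hη]
    linarith
  set s := Real.sqrt (Real.log (Real.log γ)) with hs
  -- `exp (A' √(ll T)) ≤ exp (A' (s + 1))`
  have e1 : Real.exp (A' * Real.sqrt (ll T)) ≤ Real.exp (A' * (s + 1)) :=
    Real.exp_le_exp.2 (mul_le_mul_of_nonneg_left hsT hA'.le)
  have hz0 : 0 ≤ z := by
    by_contra h
    have h4 : z * Real.exp (A' * Real.sqrt (ll T)) < 0 :=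
      mul_neg_of_neg_of_pos (not_le.1 h) (Real.exp_pos _)
    have h5 : 0 < η * Real.log T := mul_pos hη hlT0
    linarith
  have e2 : η * Real.log T ≤ z * Real.exp (A' * (s + 1)) :=
    hz.trans (mul_le_mul_of_nonneg_left e1 hz0)
  have e3 : η / 2 * Real.log γ ≤ z * Real.exp (A' * (s + 1)) := by
    have := mul_le_mul_of_nonneg_left hlT hη.le
    linarith
  have e4 : Real.log γ ≤ z * Real.exp (A' * (s + 1) + Real.log (2 / η)) := by
    rw [Real.exp_add, Real.exp_log (by positivity)]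
    have h4 := mul_le_mul_of_nonneg_left e3 (show (0 : ℝ) ≤ 2 / η by positivity)
    have h5 : 2 / η * (η / 2 * Real.log γ) = Real.log γ := by field_simp
    rw [h5] at h4
    linarith
  have e5 : A' * (s + 1) + Real.log (2 / η) ≤ (2 * A' + Real.log (2 / η)) * s := by
    nlinarith
  have e6 : Real.log γ ≤ z * Real.exp ((2 * A' + Real.log (2 / η)) * s) :=
    e4.trans (mul_le_mul_of_nonneg_left (Real.exp_le_exp.2 e5) hz0)
  rw [Real.exp_neg]
  rwa [← div_eq_mul_inv, div_le_iff₀ (Real.exp_pos _)]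

lemma NZ_nonneg (T : ℝ) : 0 ≤ NZ T :=
  finsum_nonneg fun γ => finsum_nonneg fun _ => Nat.cast_nonneg _

/-- module FI2 -/
theorem fi2 (h1 : FicStatement) (h2 : TypStatement) (h3 : GlbStatement) (h4 : NmqStatement)
    (h5 : DhzStatement) (h6 : ZfacStatement) : Qz2Statement := by
  classical
  obtain ⟨z1, z2, z3, z4, z5, z6, z7⟩ := h6
  intro ε hε
  set e : ℝ := min ε 1 with he
  have he0 : 0 < e := lt_min hε one_pos
  have he1 : e ≤ 1 := min_le_right _ _
  have hee : e ≤ ε := min_le_left _ _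
  obtain ⟨th, c1, c2, hth0, hth, hm1, hm2, hq⟩ := h4 (e / 8) (by positivity)
  obtain ⟨A, η, hA, hη, hη1, hG⟩ := h3 th c1 c2 (e / 8) hth0 hth hm1 (by positivity)
  obtain ⟨A', hA', hty⟩ := h2 th c1 c2 (e / 4) hth0 hth (by positivity)
  set H : ℝ → Set ℝ := fun T => {γ | γ ∈ Gset th c1 c2 A η T ∧
    ‖MM th c1 c2 T (1 / 2 + γ * I)‖ ≤ Real.exp (A' * Real.sqrt (ll T))} with hH
  have hev : ∀ᶠ T : ℝ in atTop, H T ⊆ Gset th c1 c2 A η T ∧
      (19 / 27 - e / 2) * (cG T * Real.log T) ≤ ∑ᶠ γ ∈ H T, wt T γ := by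
    filter_upwards [hG, hty, eventually_gt_atTop 1] with T hT hT2 hT1
    refine ⟨fun γ hγ => hγ.1, ?_⟩
    have hL : 0 < Real.log T := Real.log_pos hT1
    have hDp : 0 < DD T := DD_pos hT1
    have hpi : 0 < Real.sqrt Real.pi := Real.sqrt_pos.2 Real.pi_pos
    have hcG : 0 < cG T := by unfold cG; positivity
    have hGf : (Gset th c1 c2 A η T).Finite := (z7 T).subset fun γ hγ => hγ.1
    have hHf : (H T).Finite := hGf.subset fun γ hγ => hγ.1
    set B : Set ℝ := {γ | γ ∈ zset T ∧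
      Real.exp (A' * Real.sqrt (ll T)) < ‖MM th c1 c2 T (1 / 2 + γ * I)‖} with hB
    have hBf : B.Finite := (z7 T).subset fun γ hγ => hγ.1
    have e1 : ∑ᶠ γ ∈ Gset th c1 c2 A η T, wt T γ ≤
        ∑ᶠ γ ∈ H T, wt T γ + ∑ᶠ γ ∈ B, (mz γ : ℝ) * wt T γ := by
      rw [finsum_mem_eq_finite_toFinset_sum _ hGf, finsum_mem_eq_finite_toFinset_sum _ hHf,
        finsum_mem_eq_finite_toFinset_sum _ hBf]
      have e2 : ∑ γ ∈ hBf.toFinset, wt T γ ≤ ∑ γ ∈ hBf.toFinset, (mz γ : ℝ) * wt T γ := by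
        refine Finset.sum_le_sum fun γ hγ => ?_
        have hγ' : γ ∈ B := by simpa using hγ
        have hm : (1 : ℝ) ≤ mz γ := by exact_mod_cast z3 γ hγ'.1.2.2
        nlinarith [wt_pos T γ]
      refine le_trans ?_ (add_le_add_right e2 _)
      have hsub : hGf.toFinset ⊆ hHf.toFinset ∪ hBf.toFinset := by
        intro γ hγ
        have hγ' : γ ∈ Gset th c1 c2 A η T := by simpa using hγ
        rw [Finset.mem_union]
        by_cases hc : ‖MM th c1 c2 T (1 / 2 + γ * I)‖ ≤ Real.exp (A' * Real.sqrt (ll T))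
        · left
          rw [Set.Finite.mem_toFinset]
          exact ⟨hγ', hc⟩
        · right
          rw [Set.Finite.mem_toFinset]
          exact ⟨hγ'.1, not_le.1 hc⟩
      refine (Finset.sum_le_sum_of_subset_of_nonneg hsub fun γ _ _ => (wt_pos T γ).le).trans ?_
      rw [← Finset.sum_union_inter]
      have : 0 ≤ ∑ γ ∈ hHf.toFinset ∩ hBf.toFinset, wt T γ :=
        Finset.sum_nonneg fun γ _ => (wt_pos T γ).le
      linarith
    have hp : 0 ≤ cG T * Real.log T := by positivity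
    have e3 := mul_le_mul_of_nonneg_right hq hp
    have e4 : (19 / 27 - e / 2) * (cG T * Real.log T) =
      (19 / 27 - e / 8) * (cG T * Real.log T) - e / 8 * (cG T * Real.log T)
        - e / 4 * (cG T * Real.log T) := by ring
    rw [e4]
    have e5 : (m1 th c1 c2 ^ 2 / m2 th c1 c2 - e / 8) * (cG T * Real.log T) =
      m1 th c1 c2 ^ 2 / m2 th c1 c2 * (cG T * Real.log T) - e / 8 * (cG T * Real.log T) := by ring
    rw [e5] at hT
    have hT3 : ∑ᶠ γ ∈ B, (mz γ : ℝ) * wt T γ ≤ e / 4 * (cG T * Real.log T) := hT2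
    linarith
  obtain ⟨G, hG1, C, T0, hC, hT0⟩ := h1 th c1 c2 (19 / 27 - e / 2) A η (e / 2) H hth0 hth
    (by linarith) hA hη hη1 (by positivity) hev 40
  refine ⟨G, 2 * A' + Real.log (2 / η), C, T0, ?_, ?_⟩
  · intro γ hγ
    obtain ⟨g1, g2, g3, T, hT, hγT⟩ := hG1 γ hγ
    obtain ⟨⟨q1, q2, q3⟩, q4⟩ := hγT
    refine ⟨by linarith [q1.1], g2, ?_⟩
    refine pt_bound hA' hη hη1 hT q1.1 q1.2.1 ?_
    rw [h5 γ g2]
    refine q3.trans ?_
    unfold vv
    rw [norm_mul]
    exact mul_le_mul_of_nonneg_left q4 (norm_nonneg _)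
  · intro T hT
    refine ⟨le_trans ?_ (hT0 T hT).1, (hT0 T hT).2⟩
    exact mul_le_mul_of_nonneg_right (by linarith) (NZ_nonneg T)

end Pool.Agent.Lib.MP_6bc78b_nt.MS.QZ.H63
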